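import Pool.Agent.Lib.helper21.Der

set_option autoImplicit false

namespace Pool.Agent.H.MP_833c5c_lc

open Filter Pool.Agent.Lib.helper21.Der
open scoped Classical

/-- Names of numbers reached along ultrafilter trees. -/
inductive Na
  | leaf : ℕ → Na
  | node : (ℕ → Na) → Na

namespace Na

instance : Inhabited Na := ⟨leaf 0⟩

noncomputable def rep (g : ℕ → Na) : ℕ → Na := Quotient.out (g : Germ (U0 : Filter ℕ) Na)

theorem rep_eq (g : ℕ → Na) : rep g =ᶠ[U0] g := Germ.coe_eq.1 (Quotient.out_eq _)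

noncomputable def red : Na → Na
  | leaf k => leaf k
  | node f => if h : ∃ w, ∀ᶠ x in U0, red (f x) = w then h.choose else node (rep fun x => red (f x))

def ch : Na → ℕ → Na
  | leaf k, _ => leaf k
  | node f, x => f x

def Irr (u : Na) : Prop := ¬ ∃ w, ∀ᶠ x in U0, red (ch u x) = w

theorem red_of {f : ℕ → Na} {w : Na} (h : ∀ᶠ x in U0, red (f x) = w) : red (node f) = w := by
  have h1 : ∃ w, ∀ᶠ x in U0, red (f x) = w := ⟨w, h⟩
  rw [red, dif_pos h1]
  obtain ⟨x, h2, h3⟩ := (h.and h1.choose_spec).exists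
  exact h3.symm.trans h2

theorem red_irr {f : ℕ → Na} (h : Irr (node f)) : red (node f) = node (rep fun x => red (f x)) :=
  dif_neg h

theorem red_ch {u : Na} (h : ¬ Irr u) : ∀ᶠ x in U0, red (ch u x) = red u := by
  cases u with
  | leaf k => exact Eventually.of_forall fun _ => rfl
  | node f =>
    obtain ⟨w, h⟩ := not_not.1 h
    exact h.mono fun x hx => hx.trans (red_of h).symm

theorem red_congr {f g : ℕ → Na} (h : ∀ᶠ x in U0, red (f x) = red (g x)) :
    red (node f) = red (node g) := by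
  by_cases h1 : Irr (node f)
  · have h2 : Irr (node g) := fun ⟨w, hw⟩ => h1 ⟨w, (h.and hw).mono fun x hx => hx.1.trans hx.2⟩
    rw [red_irr h1, red_irr h2, rep, rep, Germ.coe_eq.2 h]
  · exact (red_of ((h.and (red_ch h1)).mono fun x hx => hx.1.symm.trans hx.2)).symm

theorem irr_node {u : Na} (h : Irr u) : ∃ f, u = node f := by
  cases u with
  | leaf k => exact absurd ⟨_, Eventually.of_forall fun _ => rfl⟩ h
  | node f => exact ⟨f, rfl⟩

theorem irr_eq {u v : Na} (hu : Irr u) (hv : Irr v) :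
    red u = red v ↔ ∀ᶠ x in U0, red (ch u x) = red (ch v x) := by
  obtain ⟨f, rfl⟩ := irr_node hu
  obtain ⟨g, rfl⟩ := irr_node hv
  refine ⟨fun h => ?_, red_congr⟩
  rw [red_irr hu, red_irr hv, node.injEq] at h
  exact (rep_eq _).symm.trans (h ▸ rep_eq _)

def mp (φ : ℕ → ℕ) : Na → Na
  | leaf k => leaf (φ k)
  | node f => node fun x => mp φ (f x)

theorem mp_mp (φ ψ : ℕ → ℕ) (h : ∀ n, ψ (φ n) = n) : ∀ v, mp ψ (mp φ v) = v
  | leaf k => congrArg leaf (h k)
  | node f => congrArg node (funext fun x => mp_mp φ ψ h (f x))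

theorem red_mp (φ : ℕ → ℕ) : ∀ v, red (mp φ (red v)) = red (mp φ v)
  | leaf _ => rfl
  | node f => by
    by_cases h : Irr (node f)
    · rw [red_irr h]
      exact red_congr ((rep_eq _).mono fun x hx => (congrArg (fun v => red (mp φ v)) hx).trans
        (red_mp φ (f x)))
    · exact (red_of ((red_ch h).mono fun x hx => (red_mp φ (f x)).symm.trans
        (congrArg (fun v => red (mp φ v)) hx))).symm

noncomputable def uf : Na → Ultrafilter ℕ
  | leaf k => pure k
  | node f => U0.bind fun x => uf (f x)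

theorem mem_uf {f : ℕ → Na} {A : Set ℕ} : A ∈ uf (node f) ↔ ∀ᶠ x in U0, A ∈ uf (f x) := Iff.rfl

theorem uf_red : ∀ v, uf (red v) = uf v
  | leaf _ => rfl
  | node f => Ultrafilter.ext fun A => by
    by_cases h : Irr (node f)
    · rw [red_irr h, mem_uf, mem_uf]
      exact eventually_congr ((rep_eq fun x => red (f x)).mono fun x hx => by rw [hx, uf_red])
    · rw [mem_uf, ← eventually_const (f := (U0 : Filter ℕ)) (p := A ∈ uf (red (node f)))]
      exact eventually_congr ((red_ch h).mono fun x hx => by rw [← hx, uf_red]; rfl)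

theorem uf_mp (φ : ℕ → ℕ) (A : Set ℕ) : ∀ v, A ∈ uf (mp φ v) ↔ φ ⁻¹' A ∈ uf v
  | leaf _ => Iff.rfl
  | node f => eventually_congr (Eventually.of_forall fun x => uf_mp φ A (f x))

theorem shift_inj {k k' : ℕ} {y y' : Na} (h : red y = red y')
    (h' : red (mp (k + ·) y) = red (mp (k' + ·) y')) : k = k' := by
  obtain ⟨r, hr⟩ := ((uf y).map fun n => (n : ZMod (k + k' + 1))).eq_pure_of_finite
  have h1 : {n : ℕ | (n : ZMod (k + k' + 1)) = r} ∈ uf y := by
    have : {r} ∈ (uf y).map fun n => (n : ZMod (k + k' + 1)) := hr ▸ Ultrafilter.mem_pure.2 rfl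
    exact this
  have h2 : {n : ℕ | (n : ZMod (k + k' + 1)) = k + r} ∈ uf (mp (k + ·) y) :=
    (uf_mp _ _ _).2 (mem_of_superset h1 fun n hn => by simp [show (n : ZMod _) = r from hn])
  rw [← uf_red, h', uf_red, uf_mp] at h2
  rw [← uf_red, h, uf_red] at h1
  obtain ⟨n, h3, h4⟩ := Ultrafilter.nonempty_of_mem (inter_mem h1 h2)
  have h5 : (k' : ZMod (k + k' + 1)) = k := by simpa [show (n : ZMod _) = r from h3] using h4
  have := (ZMod.natCast_eq_natCast_iff' _ _ _).1 h5
  rwa [Nat.mod_eq_of_lt (by omega), Nat.mod_eq_of_lt (by omega), eq_comm] at this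

noncomputable def rk : Na → Ordinal.{0}
  | leaf _ => 0
  | node f => ⨆ x, Order.succ (rk (f x))

theorem rk_lt (f : ℕ → Na) (x : ℕ) : rk (f x) < rk (node f) :=
  (Order.lt_succ _).trans_le (Ordinal.le_iSup (fun x => Order.succ (rk (f x))) x)

theorem rk_mp (φ : ℕ → ℕ) : ∀ v, rk (mp φ v) = rk v
  | leaf _ => rfl
  | node f => by simp only [mp, rk, rk_mp φ (f _)]

noncomputable def ρ (w : Na) : Ordinal.{0} := sInf (rk '' {v | red v = w})

theorem ρ_le (v : Na) : ρ (red v) ≤ rk v := csInf_le' ⟨v, rfl, rfl⟩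

theorem ρ_ex (v : Na) : ∃ u, red u = red v ∧ rk u = ρ (red v) :=
  csInf_mem (s := rk '' {u | red u = red v}) ⟨_, v, rfl, rfl⟩

theorem ρ_shift (k : ℕ) (v : Na) : ρ (red v) ≤ ρ (red (mp (k + ·) v)) := by
  obtain ⟨u, h1, h2⟩ := ρ_ex (mp (k + ·) v)
  rw [← h2, ← rk_mp (· - k), ← mp_mp (k + ·) (· - k) (by simp) v, ← red_mp, ← h1, red_mp]
  exact ρ_le _

theorem ρ_irr {f : ℕ → Na} {β : Ordinal} (h : Irr (node f)) (h1 : ∀ᶠ x in U0, β ≤ ρ (red (f x))) :
    β < ρ (red (node f)) := by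
  obtain ⟨u, h2, h3⟩ := ρ_ex (node f)
  cases u with
  | leaf k => exact Na.noConfusion (h2.trans (red_irr h))
  | node g =>
    by_cases h4 : Irr (node g)
    · obtain ⟨x, h5, h6⟩ := (((irr_eq h4 h).1 h2).and h1).exists
      exact h6.trans_lt (h3 ▸ ((h5 : red (g x) = red (f x)) ▸ ρ_le (g x)).trans_lt (rk_lt g x))
    · obtain ⟨x, h5⟩ := (red_ch h4).exists
      have := ρ_le (g x)
      rw [show red (g x) = _ from h5, h2, ← h3] at this
      exact absurd (rk_lt g x) this.not_gt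

theorem ρ_node {f : ℕ → Na} {β : Ordinal} (h1 : ∀ᶠ x in U0, β < ρ (red (f x))) :
    β < ρ (red (node f)) := by
  by_cases h : Irr (node f)
  · exact ρ_irr h (h1.mono fun _ => le_of_lt)
  · obtain ⟨x, h2, h3⟩ := ((red_ch h).and h1).exists
    exact h2 ▸ h3

end Na

end Pool.Agent.H.MP_833c5c_lc
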