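import Pool.Agent.H.MP_833c5c_lc.A

set_option autoImplicit false

namespace Pool.Agent.H.MP_833c5c_lc

open Filter Pool.Agent.Lib.helper21.Der Na
open scoped Classical

def FS (O : List ℕ → Set ℕ) (m k : ℕ) (t : List ℕ) : Prop :=
  ∃ s : Finset ℕ, s.Nonempty ∧ (∀ i ∈ s, i ∈ O t ∧ m ≤ i) ∧ ∑ i ∈ s, i = k

def W (O : List ℕ → Set ℕ) (m : ℕ) : Na → List ℕ → Prop
  | .leaf k, t => D0 (FS O m k) t
  | .node f, t => ∀ᶠ x in U0, W O m (f x) (x :: t)

def Big (O : List ℕ → Set ℕ) (n : ℕ) (t : List ℕ) : Prop := ∃ x ∈ O t, n ≤ x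

def NN (O : List ℕ → Set ℕ) (t : List ℕ) : Set Na := red '' {v | W O 0 v t}

variable {O : List ℕ → Set ℕ}

theorem FS.succ (hO : ∀ t x, O t ⊆ O (x :: t)) (m k : ℕ) (t : List ℕ) (x : ℕ) (h : FS O m k t) :
    FS O m k (x :: t) :=
  let ⟨s, h1, h2, h3⟩ := h
  ⟨s, h1, fun i hi => ⟨hO t x (h2 i hi).1, (h2 i hi).2⟩, h3⟩

theorem W.succ (hO : ∀ t x, O t ⊆ O (x :: t)) {m : ℕ} {t : List ℕ} :
    ∀ {v}, W O m v t → ∀ᶠ x in U0, W O m (ch v x) (x :: t)
  | .leaf _, h => D0.succ (FS.succ hO _ _) h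
  | .node _, h => h

theorem W.anti {m n : ℕ} (h : m ≤ n) : ∀ {v t}, W O n v t → W O m v t
  | .leaf _, _, h1 => DF.mono (fun _ ⟨s, h2, h3, h4⟩ =>
      ⟨s, h2, fun i hi => ⟨(h3 i hi).1, h.trans (h3 i hi).2⟩, h4⟩) h1
  | .node _, _, h1 => Eventually.mono h1 fun _ => W.anti h

theorem W.shift (hO : ∀ t x, O t ⊆ O (x :: t)) {m k : ℕ} (h : m ≤ k) : ∀ {v t},
    D0 (fun s => k ∈ O s) t → W O (k + 1) v t → W O m (mp (k + ·) v) t
  | .leaf _, _, h1, h2 => DF.mono (fun _ ⟨h3, s, _, h5, h6⟩ => ⟨insert k s, by simp,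
      fun i hi => by
        rcases Finset.mem_insert.1 hi with rfl | hi
        · exact ⟨h3, h⟩
        · exact ⟨(h5 i hi).1, by have := (h5 i hi).2; omega⟩, by
        rw [Finset.sum_insert fun hk => by have := (h5 k hk).2; omega, h6]⟩)
      (D0.and (fun t x h => hO t x h) (FS.succ hO _ _) h1 h2)
  | .node _, _, h1, h2 => ((D0.succ (fun t x h => hO t x h) h1).and h2).mono fun _ h3 =>
      W.shift hO h h3.1 h3.2

theorem W.one {m k : ℕ} {t : List ℕ} (h : m ≤ k) (h1 : D0 (fun s => k ∈ O s) t) :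
    W O m (.leaf k) t :=
  DF.mono (fun _ h2 => ⟨{k}, by simp, by simpa using ⟨h2, h⟩, by simp⟩) h1

theorem W.ex {n : ℕ} {t : List ℕ} (h : D0 (Big O n) t) : ∃ v, W O n v t := by
  induction h with
  | of h => exact let ⟨x, h1, h2⟩ := h; ⟨_, W.one h2 (.of h1)⟩
  | step A hA _ ih =>
    choose! f hf using ih
    exact ⟨.node f, mem_of_superset hA hf⟩

theorem up (hO : ∀ t x, O t ⊆ O (x :: t)) (T : Set (List ℕ)) (h1 : ∀ t ∈ T, ∀ᶠ x in U0, x :: t ∈ T)
    {β : Ordinal} (hS : ∀ t ∈ T, ∀ m, ∃ v, W O m v t ∧ β ≤ ρ (red v)) {m n : ℕ} (hm : m ≤ n)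
    {t : List ℕ} (h : D0 (Big O n) t) (ht : t ∈ T) :
    (∃ k, n ≤ k ∧ D0 (fun s => k ∈ O s) t) ∨ ∃ z, W O m z t ∧ β < ρ (red z) := by
  induction h with
  | of h => exact let ⟨x, h1, h2⟩ := h; Or.inl ⟨x, h2, .of h1⟩
  | @step t A hA _ ih =>
    rcases Ultrafilter.eventually_or.1 (((h1 t ht).and hA).mono fun x hx => ih x hx.2 hx.1) with
      h2 | h2
    swap
    · obtain ⟨z, hz⟩ := h2.choice
      exact Or.inr ⟨.node z, hz.mono fun _ h => h.1, ρ_node (hz.mono fun _ h => h.2)⟩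
    obtain ⟨k, hk⟩ := h2.choice
    obtain ⟨y, hy⟩ := ((h1 t ht).mono fun x hx => hS _ hx (k x + 1)).choice
    by_cases h3 : Irr (.node y)
    · exact Or.inr ⟨.node y, (hk.and hy).mono fun x h => h.2.1.anti (by have := h.1.1; omega),
        ρ_irr h3 (hy.mono fun _ h => h.2)⟩
    by_cases h4 : Irr (.node fun x => mp (k x + ·) (y x))
    · exact Or.inr ⟨.node fun x => mp (k x + ·) (y x), (hk.and hy).mono fun x h =>
        W.shift hO (hm.trans h.1.1) h.1.2 h.2.1,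
        ρ_irr h4 (hy.mono fun _ h => h.2.trans (ρ_shift _ _))⟩
    have h5 := hk.and ((red_ch h3).and (red_ch h4))
    obtain ⟨x, hx⟩ := h5.exists
    exact Or.inl ⟨k x, hx.1.1, D0.step' (h5.mono fun x' hx' =>
      shift_inj (hx'.2.1.trans hx.2.1.symm) (hx'.2.2.trans hx.2.2.symm) ▸ hx'.1.2)⟩

theorem key (hO : ∀ t x, O t ⊆ O (x :: t)) (t : List ℕ) :
    D0 (fun s => (NN O s).Infinite ∨ ∃ n, ¬ D0 (Big O n) s) t := by
  by_contra h
  let T := {t | ¬ D0 (fun s => (NN O s).Infinite ∨ ∃ n, ¬ D0 (Big O n) s) t}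
  have h1 : ∀ t ∈ T, ∀ᶠ x in U0, x :: t ∈ T := fun t ht =>
    Ultrafilter.eventually_not.2 fun h => ht (D0.step' h)
  have h2 : ∀ t ∈ T, (NN O t).Finite := fun t ht => not_not.1 fun h => ht (.of (Or.inl h))
  have h3 : ∀ t ∈ T, ∀ n, D0 (Big O n) t := fun t ht n =>
    not_not.1 fun h => ht (.of (Or.inr ⟨n, h⟩))
  obtain ⟨β, ⟨t, ht, m, h4⟩, h5⟩ := wellFounded_lt.has_min
    {β : Ordinal | ∃ t ∈ T, ∃ m, ∀ v, W O m v t → ρ (red v) ≤ β} (by
      obtain ⟨β, hβ⟩ := ((h2 t h).image ρ).bddAbove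
      exact ⟨β, t, h, 0, fun v hv => hβ ⟨_, ⟨v, hv, rfl⟩, rfl⟩⟩)
  have hS : ∀ t ∈ T, ∀ m, ∃ v, W O m v t ∧ β ≤ ρ (red v) := fun t ht m => by
    obtain ⟨_, ⟨v, hv, rfl⟩, h6⟩ := Set.exists_max_image (red '' {v | W O m v t}) ρ
      ((h2 t ht).subset (Set.image_mono fun v hv => W.anti (Nat.zero_le m) hv))
      (Set.Nonempty.image _ (W.ex (h3 t ht m)))
    exact ⟨v, hv, not_lt.1 (h5 _ ⟨t, ht, m, fun u hu => h6 _ ⟨u, hu, rfl⟩⟩)⟩
  refine Set.infinite_of_forall_exists_gt (s := leaf ⁻¹' NN O t) (fun n => ?_)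
    ((h2 t ht).preimage fun _ _ _ _ h => leaf.inj h)
  obtain ⟨k, h6, h7⟩ := (up hO T h1 hS (Nat.le_add_right m (n + 1)) (h3 t ht _) ht).resolve_right
    fun ⟨z, h6, h7⟩ => h7.not_ge (h4 z h6)
  exact ⟨k, ⟨.leaf k, W.one (Nat.zero_le k) h7, rfl⟩, by omega⟩

theorem generic {X K : Type} [Countable K] (G : K → (X → Bool) → Prop)
    (h : ∀ k (χ : X → Bool) (F : Finset X), ∃ χ' : X → Bool, ∃ F' : Finset X,
      (∀ w ∈ F, χ' w = χ w) ∧ ∀ χ'' : X → Bool, (∀ w ∈ F', χ'' w = χ' w) → G k χ'') :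
    ∃ χ, ∀ k, G k χ := by
  have : Dense (⋂ k, interior {χ | G k χ}) := dense_iInter_of_isOpen (fun _ => isOpen_interior)
    fun k => dense_iff_inter_open.2 fun U hU ⟨χ, hχ⟩ => by
      obtain ⟨F, u, h1, h2⟩ := isOpen_pi_iff.1 hU χ hχ
      obtain ⟨χ', F', h3, h4⟩ := h k χ F
      exact ⟨χ', h2 fun w hw => h3 w hw ▸ (h1 w hw).2, mem_interior_iff_mem_nhds.2
        (mem_of_superset (set_pi_mem_nhds F'.finite_toSet (s := fun w => {χ' w})
          fun w _ => (isOpen_discrete _).mem_nhds rfl) h4)⟩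
  obtain ⟨χ, hχ⟩ := this.nonempty
  exact ⟨χ, fun k => interior_subset (s := {χ | G k χ}) (Set.mem_iInter.1 hχ k)⟩

theorem exists_U {K L : Type} [Countable K] [Countable L] (u : K → Na) (𝒜 : K → Set ℕ)
    (h : ∀ i, 𝒜 i ∈ U0) (v : L → ℕ → Na) : ∃ (χ : Na → Bool) (U : Ultrafilter ℕ),
      (∀ i, 𝒜 i ∈ U ∧ ∀ᶠ x in U, χ (red (ch (u i) x)) = χ (red (u i))) ∧
      ∀ l, Function.Injective (fun n => red (v l n)) → ∃ n, χ (red (v l n)) ≠ χ (red (v l 0)) := by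
  obtain ⟨χ, hχ⟩ := generic (K := Finset K × L ⊕ Finset K) (fun k χ => Sum.elim
    (fun k : Finset K × L => Function.Injective (fun n => red (v k.2 n)) →
      ∃ n, χ (red (v k.2 n)) ≠ χ (red (v k.2 0)))
    (fun I : Finset K => ∃ x, ∀ i ∈ I, x ∈ 𝒜 i ∧ χ (red (ch (u i) x)) = χ (red (u i))) k)
    fun k χ F => by
    rcases k with ⟨-, l⟩ | I
    · by_cases h1 : Function.Injective fun n => red (v l n)
      · obtain ⟨n, h2⟩ := (((insert (red (v l 0)) F).finite_toSet.preimage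
          h1.injOn).infinite_compl).nonempty
        simp only [Finset.coe_insert, Set.mem_compl_iff, Set.mem_preimage, Set.mem_insert_iff,
          not_or, Finset.mem_coe] at h2
        refine ⟨Function.update χ (red (v l n)) (!χ (red (v l 0))), {red (v l n), red (v l 0)},
          fun w hw => Function.update_of_ne (ne_of_mem_of_not_mem hw h2.2) _ _, fun χ' h3 _ => ⟨n, ?_⟩⟩
        rw [h3 _ (by simp), h3 _ (by simp), Function.update_self,
          Function.update_of_ne (Ne.symm h2.1)]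
        simp
      · exact ⟨χ, ∅, fun _ _ => rfl, fun _ _ h => absurd h h1⟩
    obtain ⟨x, hx⟩ : ∃ x, ∀ i ∈ I, x ∈ 𝒜 i ∧ (¬ Irr (u i) → red (ch (u i) x) = red (u i)) ∧
        (Irr (u i) → (∀ w ∈ F ∪ I.image fun j => red (u j), red (ch (u i) x) ≠ w) ∧
          ∀ j ∈ I, Irr (u j) → red (u i) ≠ red (u j) → red (ch (u i) x) ≠ red (ch (u j) x)) :=
      ((eventually_all_finset I).2 fun i _ => Eventually.and (h i) ((eventually_imp_distrib_left.2
        red_ch).and (eventually_imp_distrib_left.2 fun hi => ((eventually_all_finset _).2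
          fun w _ => Ultrafilter.eventually_not.2 fun h => hi ⟨w, h⟩).and
          ((eventually_all_finset I).2 fun j _ => eventually_imp_distrib_left.2 fun hj =>
            eventually_imp_distrib_left.2 fun h1 => Ultrafilter.eventually_not.2
              fun h2 => h1 ((irr_eq hi hj).2 h2))))).exists
    let χ' : Na → Bool := fun w =>
      if h : ∃ i ∈ I, Irr (u i) ∧ red (ch (u i) x) = w then χ (red (u h.choose)) else χ w
    have h1 : ∀ w ∈ F ∪ I.image fun j => red (u j), χ' w = χ w := fun w hw =>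
      dif_neg fun ⟨i, hi, h2, h3⟩ => ((hx i hi).2.2 h2).1 w hw h3
    refine ⟨χ', (I.image fun j => red (u j)) ∪ I.image fun j => red (ch (u j) x),
      fun w hw => h1 w (Finset.mem_union_left _ hw), fun χ'' h2 => ⟨x, fun i hi =>
        ⟨(hx i hi).1, ?_⟩⟩⟩
    by_cases h3 : Irr (u i)
    · have h4 : ∃ j ∈ I, Irr (u j) ∧ red (ch (u j) x) = red (ch (u i) x) := ⟨i, hi, h3, rfl⟩
      rw [h2 _ (Finset.mem_union_right _ (Finset.mem_image_of_mem _ hi)),
        h2 _ (Finset.mem_union_left _ (Finset.mem_image_of_mem _ hi)),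
        h1 _ (Finset.mem_union_right _ (Finset.mem_image_of_mem _ hi))]
      obtain ⟨h5, h6, h7⟩ := h4.choose_spec
      exact (dif_pos h4).trans (congrArg χ (not_not.1 fun h8 =>
        ((hx _ h5).2.2 h6).2 i hi h3 h8 h7))
    · rw [(hx i hi).2.1 h3]
  choose x hx using fun I => hχ (.inr I)
  refine ⟨χ, (Ultrafilter.of atTop).map x, fun i => ?_, fun l => hχ (.inl (∅, l))⟩
  have : ∀ᶠ I in (Ultrafilter.of (atTop : Filter (Finset K)) : Filter (Finset K)), i ∈ I :=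
    Ultrafilter.of_le _ ((eventually_ge_atTop ({i} : Finset K)).mono fun I hI =>
      Finset.singleton_subset_iff.1 hI)
  exact ⟨this.mono fun I hI => (hx I i hI).1, this.mono fun I hI => (hx I i hI).2⟩

end Pool.Agent.H.MP_833c5c_lc
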