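import Pool.Agent.H.MP_833c5c_lc.B
import Pool.Agent.H.MP_f4da35_lc.C

set_option autoImplicit false

namespace Pool.Agent.H.MP_833c5c_lc

open Filter Pool.Agent.Lib.helper21.Der Na Pool.Agent.Lib.helper21.Fn
open Pool.Agent.H.MP_f4da35_lc (S0)
open scoped Classical

theorem succ' {F : Filter ℕ} {P : List ℕ → Prop} (hP : ∀ t x, P t → P (x :: t)) {t : List ℕ}
    (h : DF F.sets P t) : ∀ᶠ x in F, DF F.sets P (x :: t) := by
  cases h with
  | of h => exact Eventually.of_forall fun x => .of (hP t x h)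
  | step A hA h => exact mem_of_superset hA h

theorem and' {F : Filter ℕ} {P Q : List ℕ → Prop} (hP : ∀ t x, P t → P (x :: t))
    (hQ : ∀ t x, Q t → Q (x :: t)) {t : List ℕ} (h1 : DF F.sets P t) (h2 : DF F.sets Q t) :
    DF F.sets (fun t => P t ∧ Q t) t := by
  induction h1 with
  | of h =>
    induction h2 with
    | of h' => exact .of ⟨h, h'⟩
    | step A hA _ ih => exact .step A hA fun x hx => ih x hx (hP _ x h)
  | step A hA _ ih => exact .step _ (inter_mem hA (succ' hQ h2)) fun x hx => ih x hx.1 hx.2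

theorem bind' {F : Set (Set ℕ)} {P Q : List ℕ → Prop} (hPQ : ∀ t, P t → DF F Q t) {t : List ℕ}
    (h : DF F P t) : DF F Q t := by
  induction h with
  | of h => exact hPQ _ h
  | step A hA _ ih => exact .step A hA ih

def Keep (O : List ℕ → Set ℕ) (t : List ℕ) : Set ℕ :=
  {x | ∀ n, ¬ D0 (Big O n) t → ¬ D0 (Big O n) (x :: t)}

theorem keep_mem (O : List ℕ → Set ℕ) (t : List ℕ) : Keep O t ∈ U0 := by
  by_cases h : ∃ n, ¬ D0 (Big O n) t
  · refine mem_of_superset (Ultrafilter.eventually_not.2 fun h1 => Nat.find_spec h (D0.step' h1))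
      fun x hx n hn h1 => hx (DF.mono (fun _ ⟨y, h2, h3⟩ => ⟨y, h2, (Nat.find_min' h hn).trans h3⟩) h1)
  · exact univ_mem' fun x n hn => absurd ⟨n, hn⟩ h

theorem gen (O : ℕ → List ℕ → Set ℕ) (hO : ∀ e t x, O e t ⊆ O e (x :: t)) :
    ∃ (c : ℕ → Bool) (U : Ultrafilter ℕ), (∀ a, ∀ᶠ x : ℕ in U, a < x) ∧ (∀ e t, Keep (O e) t ∈ U) ∧
      ∀ e t, DF (U : Filter ℕ).sets (fun s => (∃ n, ¬ D0 (Big (O e) n) s) ∨
        ∃ k k', FS (O e) 0 k s ∧ FS (O e) 0 k' s ∧ c k ≠ c k') t := by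
  have h1 : ∀ l : ℕ × List ℕ, ∃ v : ℕ → Na, (NN (O l.1) l.2).Infinite →
      (∀ n, W (O l.1) 0 (v n) l.2) ∧ Function.Injective fun n => red (v n) := fun l => by
    by_cases h : (NN (O l.1) l.2).Infinite
    · choose v h2 h3 using fun n => (h.natEmbedding _ n).2
      exact ⟨v, fun _ => ⟨h2, fun a b h4 => (h.natEmbedding _).injective
        (Subtype.ext ((h3 a).symm.trans (h4.trans (h3 b))))⟩⟩
    · exact ⟨default, fun h' => absurd h' h⟩
  choose v hv using h1
  choose A1 h1 h2 using fun e k => transfer (FS (O e) 0 k)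
  choose A2 h3 h4 using fun e => transfer
    fun s => (NN (O e) s).Infinite ∨ ∃ n, ¬ D0 (Big (O e) n) s
  let u : ((ℕ × List ℕ) × ℕ × List ℕ) × List ℕ × ℕ → Na := fun i =>
    i.1.2.2.foldr (fun x u => ch u x) (v i.1.1 i.1.2.1)
  obtain ⟨χ, U, h5, h6⟩ := exists_U u (fun i => {x | i.2.2 < x ∧ (W (O i.1.1.1) 0 (u i) i.2.1 →
      W (O i.1.1.1) 0 (ch (u i) x) (x :: i.2.1)) ∧ x ∈ Keep (O i.1.1.1) i.2.1 ∧
      x ∈ A1 i.1.1.1 i.2.2 i.2.1 ∧ x ∈ A2 i.1.1.1 i.2.1}) (fun i => inter_mem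
    (Nat.hyperfilter_le_atTop (eventually_gt_atTop _)) (inter_mem (eventually_imp_distrib_left.2
      (W.succ (hO _))) (inter_mem (keep_mem _ _) (inter_mem (h1 _ _ _) (h3 _ _))))) v
  have h7 : ∀ e t n w p s, u (((e, t), n, p), s, 0) = w → W (O e) 0 w s → DF (U : Filter ℕ).sets
      (fun s => ∃ k, FS (O e) 0 k s ∧ χ (leaf k) = χ (red w)) s := fun e t n w => by
    induction w with
    | leaf k => exact fun p s _ h => DF.mono (fun s hs => ⟨k, hs, rfl⟩) (h2 e k _ (fun s =>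
        mem_of_superset (h5 (((e, t), n, p), s, k)).1 fun x hx => hx.2.2.2.1) s h)
    | node f ih =>
      intro p s h h'
      refine .step _ (inter_mem (h5 (((e, t), n, p), s, 0)).1 (h5 (((e, t), n, p), s, 0)).2)
        fun x ⟨k1, k2⟩ => ?_
      have k3 := k1.2.1 (h ▸ h')
      simp only [Set.mem_ofPred_eq, h] at k2 k3
      exact k2 ▸ ih x (x :: p) (x :: s) (congrArg (ch · x) h) k3
  refine ⟨fun k => χ (leaf k), U, fun a => mem_of_superset (h5 (default, [], a)).1 fun x h => h.1,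
    fun e t => mem_of_superset (h5 (((e, t), 0, []), t, 0)).1 fun x h => h.2.2.1, fun e t =>
    bind' (fun s hs => ?_) (h4 e _ (fun s => mem_of_superset (h5 (((e, t), 0, []), s, 0)).1
      fun x h => h.2.2.2.2) t (key (hO e) t))⟩
  rcases hs with hs | hs
  · obtain ⟨k1, k2⟩ := hv (e, s) hs
    obtain ⟨n, hn⟩ := h6 _ k2
    have k3 : ∀ b t x, (∃ k, FS (O e) 0 k t ∧ χ (leaf k) = b) →
        ∃ k, FS (O e) 0 k (x :: t) ∧ χ (leaf k) = b :=
      fun b t x ⟨k, h, h'⟩ => ⟨k, h.succ (hO e) _ _ _ _, h'⟩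
    exact DF.mono (fun t ⟨⟨k, k4, k5⟩, k', k6, k7⟩ => Or.inr ⟨k, k', k4, k6,
      fun h => hn (k5.symm.trans (h.trans k7))⟩) (and' (k3 _) (k3 _)
        (h7 e s n _ [] s rfl (k1 n)) (h7 e s 0 _ [] s rfl (k1 0)))
  · exact .of (Or.inl hs)

def OK (B : List ℕ → Set ℕ) : List ℕ → Prop
  | [] => True
  | x :: t => OK B t ∧ x ∈ B t

theorem chain {U : Ultrafilter ℕ} {B : List ℕ → Set ℕ} (hB : ∀ t, B t ∈ U)
    {Q : ℕ → List ℕ → Prop} (hQ : ∀ e t, DF (U : Filter ℕ).sets (Q e) t) :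
    ∃ τ : ℕ → List ℕ, (∀ k l, k ≤ l → τ k <:+ τ l) ∧ (∀ k, k ≤ (τ k).length) ∧
      (∀ k, OK B (τ k)) ∧ ∀ e, Q e (τ (e + 1)) := by
  have h1 : ∀ e t, OK B t → ∃ s, t <:+ s ∧ OK B s ∧ Q e s := fun e t => by
    induction hQ e t with
    | of h => exact fun h' => ⟨_, List.suffix_refl _, h', h⟩
    | step A hA _ ih =>
      intro h
      obtain ⟨x, h2, h3⟩ := Ultrafilter.nonempty_of_mem (inter_mem hA (hB _))
      obtain ⟨s, h4, h5⟩ := ih x h2 ⟨h, h3⟩
      exact ⟨s, (List.suffix_cons _ _).trans h4, h5⟩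
  choose x hx using fun t => Ultrafilter.nonempty_of_mem (hB t)
  choose F h2 h3 h4 using fun e (t : {t // OK B t}) => h1 e (x t :: t) ⟨t.2, hx t⟩
  let σ : ℕ → {t // OK B t} := fun k => Nat.rec ⟨[], trivial⟩ (fun e t => ⟨F e t, h3 e t⟩) k
  refine ⟨fun k => (σ k).1, fun k l h => ?_, fun k => ?_, fun k => (σ k).2, fun e => h4 e (σ e)⟩
  · induction h with
    | refl => exact List.suffix_refl _
    | step _ ih => exact ih.trans ((List.suffix_cons _ _).trans (h2 _ _))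
  · induction k with
    | zero => exact Nat.zero_le _
    | succ k ih => exact (Nat.succ_le_succ ih).trans (h2 k (σ k)).length_le

noncomputable def dl (U : Ultrafilter ℕ) (d : Finset ℕ → Bool) : ℕ → Finset ℕ → Bool
  | 0, s => d s
  | r + 1, s => decide (∀ᶠ x in U, dl U d r (insert x s) = true)

theorem lim (U : Ultrafilter ℕ) (g : ℕ → Bool) :
    ∀ᶠ x in U, g x = decide (∀ᶠ x in U, g x = true) := by
  by_cases h : ∀ᶠ x in U, g x = true
  · simp [h]
  · simpa [h] using Ultrafilter.eventually_not.2 h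

theorem main : ∃ c : ℕ → Bool, ∀ d : Finset ℕ → Bool, ∃ H : Om, {m | H m = true}.Infinite ∧
    (∃ b, ∀ s : Finset ℕ, (∀ i ∈ s, H i = true) →
      (∃ m ∈ s, (∀ i ∈ s, m ≤ i) ∧ s.card = m + 1) → d s = b) ∧
    ∀ X : Om, {m | X m = true}.Infinite → TuringReducible (orc X) (orc H) →
      ¬ ∃ j, ∀ s : Finset ℕ, s.Nonempty → (∀ i ∈ s, X i = true) → c (∑ i ∈ s, i) = j := by
  obtain ⟨c, U, u1, u2, u3⟩ := gen S0.O S0.mono
  refine ⟨c, fun d => ?_⟩
  let b := decide (∀ᶠ x in U, dl U d x {x} = true)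
  let B : List ℕ → Set ℕ := fun t => {x | (∀ y ∈ t.toFinset, y < x) ∧
    (∀ e ∈ Finset.range t.length, x ∈ Keep (S0.O e) t) ∧ dl U d x {x} = b ∧
      ∀ s ∈ t.toFinset.powerset, ∀ r ∈ t.toFinset.biUnion Finset.range,
        dl U d r (insert x s) = dl U d (r + 1) s}
  obtain ⟨τ, h1, h2, h0, h4⟩ := chain (B := B) (fun t => inter_mem ((eventually_all_finset _).2
    fun y _ => u1 y) (inter_mem ((eventually_all_finset _).2 fun e _ => u2 e t) (inter_mem (lim U _)
      ((eventually_all_finset _).2 fun s _ => (eventually_all_finset _).2 fun r _ => lim U _)))) u3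
  have h3 : ∀ t, OK B t → t.Pairwise (· > ·) := fun t => by
    induction t with
    | nil => exact fun _ => .nil
    | cons x t ih => exact fun h => .cons (fun y hy => h.2.1 y (List.mem_toFinset.2 hy)) (ih h.1)
  have h9 : ∀ t, OK B t → ∀ s ⊆ t.toFinset, ∀ m ∈ s, (∀ i ∈ s, m ≤ i) → ∀ r, s.card + r = m + 1 →
      dl U d r s = b := fun t => by
    induction t with
    | nil => exact fun _ s hs m hm => by simpa using hs hm
    | cons x t ih =>
      intro h s hs m hm k1 r k2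
      rw [List.toFinset_cons, Finset.subset_insert_iff] at hs
      by_cases k3 : x ∈ s
      · by_cases k4 : m = x
        · obtain rfl : s = {x} := Finset.eq_singleton_iff_unique_mem.2 ⟨k3, fun y hy =>
            by_contra fun k5 => (h.2.1 y (hs (Finset.mem_erase.2 ⟨k5, hy⟩))).not_ge (k4 ▸ k1 y hy)⟩
          obtain rfl : r = x := by simp at k2; omega
          exact h.2.2.2.1
        · have k5 := Finset.mem_erase.2 ⟨k4, hm⟩
          have k6 := Finset.card_erase_add_one k3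
          have k7 := Finset.card_pos.2 ⟨m, k5⟩
          rw [← Finset.insert_erase k3, h.2.2.2.2 _ (Finset.mem_powerset.2 hs) r
            (Finset.mem_biUnion.2 ⟨m, hs k5, Finset.mem_range.2 (by omega)⟩)]
          exact ih h.1 _ hs m k5 (fun i hi => k1 i (Finset.mem_of_mem_erase hi)) _ (by omega)
      · exact ih h.1 s (Finset.erase_eq_of_notMem k3 ▸ hs) m hm k1 r k2
  let H : Om := fun y => decide (∃ k, y ∈ τ k)
  have h5 : {m | H m = true}.Infinite := fun h => by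
    have k1 : (τ (h.toFinset.card + 1)).Nodup := (h3 _ (h0 _)).imp fun h => h.ne'
    have k2 := Finset.card_le_card (s := (τ (h.toFinset.card + 1)).toFinset) (t := h.toFinset)
      fun y hy => h.mem_toFinset.2 (decide_eq_true ⟨_, List.mem_toFinset.1 hy⟩)
    rw [List.toFinset_card_of_nodup k1] at k2
    have := h2 (h.toFinset.card + 1)
    omega
  have h6 : ∀ k y s, y :: s <:+ τ k → ∀ z ≤ y, H z = decide (z ∈ y :: s) := fun k y s h z hz => by
    refine decide_eq_decide.2 ⟨fun ⟨l, hl⟩ => ?_, fun hz => ⟨k, h.subset hz⟩⟩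
    obtain ⟨r, hr⟩ := h.trans (h1 k _ (le_max_left k l))
    have k1 := (h1 l _ (le_max_right k l)).subset hl
    have k2 := h3 _ (h0 (max k l))
    rw [← hr] at k1 k2
    exact (List.mem_append.1 k1).resolve_left fun k3 =>
      ((List.pairwise_append.1 k2).2.2 z k3 y List.mem_cons_self).not_ge hz
  have h7 : ∀ y, H y = true → ∃ k s, y :: s <:+ τ k := fun y hy => by
    obtain ⟨k, hk⟩ := of_decide_eq_true hy
    obtain ⟨r, s, hr⟩ := List.append_of_mem hk
    exact ⟨k, s, r, hr.symm⟩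
  refine ⟨H, h5, ⟨b, fun s hs ⟨m, k1, k2, k3⟩ => ?_⟩, fun X hX hr ⟨j, hj⟩ => ?_⟩
  · choose! k hk using fun i hi => of_decide_eq_true (hs i hi)
    exact h9 _ (h0 (s.sup k)) s (fun i hi => List.mem_toFinset.2
      ((h1 _ _ (Finset.le_sup hi)).subset (hk i hi))) m k1 k2 0 k3
  obtain ⟨e, he⟩ := complete H _ hr
  have h8 : ∀ k, ∀ x ∈ S0.O e (τ k), X x = true := fun k x ⟨y, s, k1, u, k2, k3⟩ => by
    rw [← att_congr e (fun z hz => h6 k y s k1 z hz.le) k2] at k3
    have := (he x).2 u (by omega)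
    cases h : X x
    · simp [h, k3] at this
    · rfl
  rcases h4 e with ⟨n, h⟩ | ⟨_, _, ⟨s, k1, k2, rfl⟩, ⟨s', k3, k4, rfl⟩, k5⟩
  · obtain ⟨x, hx, k0⟩ := hX.exists_gt n
    obtain ⟨u, hu⟩ := (he x).1
    obtain ⟨y, hy, k1⟩ := h5.exists_gt u
    obtain ⟨k, s, k2⟩ := h7 y hy
    have k3 : ∀ r, OK B (r ++ τ (e + 1)) → ¬ D0 (Big (S0.O e) n) (r ++ τ (e + 1)) := by
      intro r
      induction r with
      | nil => exact fun _ => h
      | cons z r ih =>
        intro k4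
        refine k4.2.2.1 e (Finset.mem_range.2 ?_) n (ih k4.1)
        have := h2 (e + 1)
        simp only [List.append_eq, List.length_append]
        omega
    obtain ⟨r, k4⟩ := h1 _ _ (le_max_right k (e + 1))
    refine k3 r (k4 ▸ h0 _) (.of ⟨x, ⟨y, s, k4 ▸ k2.trans (h1 _ _ (le_max_left _ _)), u, k1.le, ?_⟩,
      k0.le⟩)
    rw [← att_congr e (fun z hz => h6 k y s k2 z hz.le) k1.le, (he x).2 u hu,
      show X x = true from hx]
    rfl
  · exact k5 ((hj s k1 fun i hi => h8 _ i (k2 i hi).1).trans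
      (hj s' k3 fun i hi => h8 _ i (k4 i hi).1).symm)

end Pool.Agent.H.MP_833c5c_lc
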